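import Pool.Agent.R893.DHG.Limit
import Pool.Agent.R893.DHG.Transitive

set_option autoImplicit false

/-!
# A strongly universal vertex-transitive countable distance-hereditary graph

The vertices of the universal graph are words. A letter consists of a rational number and two
labels, and the letters are ordered lexicographically; a word `m ++ [x]` is created from the word
`m` as a twin, a pendant vertex or an isolated vertex, depending on the labels of `x`, and the
rational numbers give the order of the creations from the same word. Each prefix-closed finite set
of words can be pruned in the lexicographic order, so the graph is distance-hereditary.

Conversely let `G` be a countable connected distance-hereditary graph. Number its vertices such that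
each vertex but the first one has a neighbour of smaller number. A finite connected initial piece
has a pendant vertex different from the root or twins, and removing the pendant vertex or the twin of
larger number gives by induction an embedding in the graph of words for which the length of the word
of a vertex is at most its number. So the ultraproduct of these embeddings is an embedding in a
graph of (finite) words over a nonstandard linear order, and the countably many letters which occur
can be embedded in the rational numbers. The components of a graph are separated by a first letter
with labels `false, false`.

For the vertex-transitive graph, glue copies of the universal graph in a tree-like way: the vertices
are the elements of the free group on its vertex set, and the copy with index `g` consists of the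
elements `a⁻¹ g`. Right translations are automorphisms.
-/

namespace Pool.Agent.Results.MP_0380a0_co.UniversalTransitive

open Pool.Agent.R893.DHG

/-- `U` is strongly universal for the countable distance-hereditary graphs (it is required in
`result` that `V` is countable): `U` is distance-hereditary, and every countable
distance-hereditary graph is isomorphic to an induced subgraph of `U`. -/
def StronglyUniversal {V : Type} (U : SimpleGraph V) : Prop :=
  DistanceHereditary U ∧ ∀ (W : Type) [Countable W] (K : SimpleGraph W),
    DistanceHereditary K → Nonempty (K ↪g U)

/-- The automorphism group acts transitively on the vertices. -/
def VertexTransitive {V : Type} (U : SimpleGraph V) : Prop :=
  ∀ a b : V, ∃ f : U ≃g U, f a = b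

/-- There is a countable graph which is strongly universal for the countable distance-hereditary
graphs and vertex-transitive. -/
theorem result : ∃ (V : Type) (_ : Countable V) (U : SimpleGraph V),
    StronglyUniversal U ∧ VertexTransitive U := by
  refine ⟨FreeGroup (List (Letter ℚ)), inferInstance, freeG (wordGraph (Letter ℚ)),
    ⟨of_DHW (DHW_freeG DHW_wordGraph), fun W _ K hK => ?_⟩, freeG_transitive⟩
  obtain ⟨f⟩ := exists_embedding (DHW_of hK)
  exact ⟨embC.comp f⟩

end Pool.Agent.Results.MP_0380a0_co.UniversalTransitive
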